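import Mathlib
import Pool.Agent.H.MP_5bb273_ag.C

namespace Pool.Agent.Results.MP_5bb273_ag.NotMaxRank

open MvPolynomial Pool.Agent.H.MP_5bb273_ag

/-- the maximal ideal of a point of the affine plane -/
noncomputable def ptIdeal {K : Type*} [Field K] (a : Fin 2 → K) : Ideal (MvPolynomial (Fin 2) K) :=
  Ideal.span {X 0 - C (a 0), X 1 - C (a 1)}

/-- sections of `dH - ∑ m_i E_i` : polynomials of degree at most `d` vanishing to order `m_i` at `p_i` -/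
def sections {K : Type*} [Field K] {r : ℕ} (d : ℕ) (m : Fin r → ℕ) (p : Fin r → Fin 2 → K) :
    Set (MvPolynomial (Fin 2) K) :=
  {f | f.totalDegree ≤ d ∧ ∀ i, f ∈ ptIdeal (p i) ^ m i}

theorem result (K : Type*) [Field K] [CharZero K] (m : Fin 7 → ℕ)
    (hm : m = ![3, 2, 2, 2, 2, 2, 2]) :
    ∃ G : MvPolynomial (Fin 7 × Fin 2) K, G ≠ 0 ∧ ∀ p : Fin 7 → Fin 2 → K,
      eval (fun ij => p ij.1 ij.2) G ≠ 0 →
        Function.Injective p ∧
        (∀ g, (∀ f ∈ sections 6 m p, g ∣ f) → IsUnit g) ∧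
        (∃ f ∈ sections 6 m p, f.totalDegree = 6) ∧
        (∀ i, ∃ f ∈ sections 6 m p, f ∉ ptIdeal (p i) ^ (m i + 1)) ∧
        (∃ f ∈ sections 6 m p, f ≠ 0 ∧ f ∈ ptIdeal (p 0) ^ 4) ∧
        (∃ h ∈ ptIdeal (p 0) ^ 3, ∀ f ∈ sections 6 m p, f - h ∉ ptIdeal (p 0) ^ 4) := by
  obtain ⟨G, n, h⟩ := main K
  refine ⟨G, n, fun p hp => ?_⟩
  have e : ∀ f, f ∈ sections 6 m p ↔ Sys (fun ij => p ij.1 ij.2) f := fun f => by
    rw [hm]; exact Iff.rfl
  have e' : ∀ i, ptIdeal (p i) = I (p i 0) (p i 1) := fun i => rfl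
  have e'' : m = mm := hm
  obtain ⟨h0, h1, h2, h3, h4, h5⟩ := h _ hp
  simp only [e, e', e'']
  exact ⟨fun i j k => h0 i j fun l => congrFun k l, h1, h2, h3, h4, h5⟩

end Pool.Agent.Results.MP_5bb273_ag.NotMaxRank
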